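import Pool.Agent.V8H49.CS.Par

set_option autoImplicit false

/-! Canonical elements of dihedral reflection sets. -/

namespace Pool.Agent.V8H49.CS

open Pool.Agent.Helper376.LC Pool.Agent.R330.BP CoxeterSystem

variable {B : Type*} {M : CoxeterMatrix B} {W : Type*} [Group W] (cs : CoxeterSystem M W)

theorem two_le_M {a b : B} (hab : a ≠ b) (h0 : M a b ≠ 0) : 2 ≤ M a b := by
  have := M.off_diagonal a b hab
  omega

theorem tt_eq_iff {a b : B} (hab : a ≠ b) (x : W) {l l' : ℕ} (hl : l < M a b)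
    (hl' : l' < 2 * M a b) :
    tt cs a b x l = tt cs a b x l' ↔ l' = l ∨ l' = l + M a b := by
  constructor
  · intro h
    rcases lt_or_ge l' (M a b) with h1 | h1
    · left
      exact (tt_inj cs hab x hl h1 h).symm
    · right
      have h2 : tt cs a b x l' = tt cs a b x (l' - M a b) := by
        conv_lhs => rw [show l' = l' - M a b + M a b by omega, tt_period]
      rw [h2] at h
      have := tt_inj cs hab x hl (by omega) h
      omega
  · rintro (rfl | rfl)
    · rfl
    · rw [tt_period]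

theorem eta_walk_min {a b : B} (hab : a ≠ b) (h0 : M a b ≠ 0) {x : W}
    (hx : ∀ t ∈ R cs a b x, eta cs x t = 0) {k l : ℕ} (hk : k ≤ 2 * M a b) (hl : l < M a b) :
    eta cs (walk cs a b k * x) (tt cs a b x l) =
      (if l < k then 1 else 0) + (if l + M a b < k then 1 else 0) := by
  classical
  rw [eta_walk, hx _ (tt_mem_R cs h0 x l), zero_add]
  have h1 : ∀ l' ∈ Finset.range k,
      (if tt cs a b x l = tt cs a b x l' then (1 : ZMod 2) else 0) =
        (if l = l' then 1 else 0) + (if l + M a b = l' then 1 else 0) := by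
    intro l' hl'
    rw [Finset.mem_range] at hl'
    have h2 := tt_eq_iff cs hab x hl (l' := l') (by omega)
    by_cases e1 : l' = l
    · rw [if_pos (h2.2 (Or.inl e1)), if_pos e1.symm, if_neg (by omega), add_zero]
    · by_cases e2 : l' = l + M a b
      · rw [if_pos (h2.2 (Or.inr e2)), if_neg (Ne.symm e1), if_pos e2.symm, zero_add]
      · rw [if_neg (fun h => (h2.1 h).elim e1 e2), if_neg (Ne.symm e1), if_neg (Ne.symm e2),
          zero_add]
  rw [Finset.sum_congr rfl h1, Finset.sum_add_distrib, Finset.sum_ite_eq, Finset.sum_ite_eq]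
  simp only [Finset.mem_range]

theorem exists_proj (a b : B) (v x : W) :
    ∃ p ∈ P cs a b, ∀ t ∈ R cs a b x, eta cs v t = eta cs (p * x) t := by
  classical
  have hex : ∃ n, ∃ p ∈ P cs a b, cs.length (v * x⁻¹ * p⁻¹) = n := ⟨_, 1, one_mem _, rfl⟩
  obtain ⟨p, hp, hn⟩ := Nat.find_spec hex
  refine ⟨p, hp, ?_⟩
  rintro t ⟨ht, htP⟩
  have h1 : v = (v * x⁻¹ * p⁻¹) * (p * x) := by group
  conv_lhs => rw [h1, eta_mul]
  have h2 : eta cs (v * x⁻¹ * p⁻¹) (p * x * t * (p * x)⁻¹) = 0 := by
    apply eta_eq_zero_of_not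
    intro hlt
    have h3 : v * x⁻¹ * p⁻¹ * (p * x * t * (p * x)⁻¹) = v * x⁻¹ * (p * (x * t * x⁻¹)⁻¹)⁻¹ := by
      group
    have h4 := Nat.find_min hex (m := cs.length (v * x⁻¹ * p⁻¹ * (p * x * t * (p * x)⁻¹)))
      (by rw [← hn]; exact hlt)
    exact h4 ⟨p * (x * t * x⁻¹)⁻¹, mul_mem hp (inv_mem htP), by rw [h3]⟩
  rw [h2, add_zero]

/-- canonical elements of a set of reflections -/
def IsCan (D : Set W) (t : W) : Prop := t ∈ D ∧ ∃ v : W, ∀ u ∈ D, eta cs v u = 1 ↔ u = t

theorem can_zero {a b : B} (hab : a ≠ b) (h0 : M a b ≠ 0) {x : W}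
    (hx : ∀ t ∈ R cs a b x, eta cs x t = 0) : IsCan cs (R cs a b x) (tt cs a b x 0) := by
  have h2 := two_le_M hab h0
  refine ⟨tt_mem_R cs h0 x 0, walk cs a b 1 * x, ?_⟩
  intro u hu
  obtain ⟨l, hl, rfl⟩ := (mem_R_iff cs h0).1 hu
  rw [eta_walk_min cs hab h0 hx (by omega) hl, tt_eq_iff cs hab x hl (by omega)]
  by_cases e : l = 0
  · subst e
    rw [if_pos (by omega), if_neg (by omega)]
    simp
  · rw [if_neg (by omega), if_neg (by omega)]
    simp only [add_zero, zero_ne_one, false_iff]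
    omega

theorem can_last {a b : B} (hab : a ≠ b) (h0 : M a b ≠ 0) {x : W}
    (hx : ∀ t ∈ R cs a b x, eta cs x t = 0) :
    IsCan cs (R cs a b x) (tt cs a b x (M a b - 1)) := by
  have h2 := two_le_M hab h0
  refine ⟨tt_mem_R cs h0 x _, walk cs a b (2 * M a b - 1) * x, ?_⟩
  intro u hu
  obtain ⟨l, hl, rfl⟩ := (mem_R_iff cs h0).1 hu
  rw [eta_walk_min cs hab h0 hx (by omega) hl, tt_eq_iff cs hab x hl (by omega)]
  rw [if_pos (by omega)]
  by_cases e : l = M a b - 1
  · rw [if_neg (by omega)]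
    simp [e]
  · rw [if_pos (by omega)]
    have : (1 : ZMod 2) + 1 = 0 := by decide
    rw [this]
    simp only [zero_ne_one, false_iff]
    omega

theorem can_cases {a b : B} (hab : a ≠ b) (h0 : M a b ≠ 0) {x t : W}
    (hx : ∀ t ∈ R cs a b x, eta cs x t = 0) (ht : IsCan cs (R cs a b x) t) :
    t = tt cs a b x 0 ∨ t = tt cs a b x (M a b - 1) := by
  have h2 := two_le_M hab h0
  obtain ⟨h3, v, hv⟩ := ht
  obtain ⟨p, hp, hpv⟩ := exists_proj cs a b v x
  obtain ⟨k, hk, rfl⟩ := (mem_P_iff cs h0).1 hp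
  have key : ∀ l < M a b, ((if l < k then 1 else 0) + (if l + M a b < k then 1 else 0) : ZMod 2) = 1 ↔
      tt cs a b x l = t := by
    intro l hl
    rw [← hv _ (tt_mem_R cs h0 x l), hpv _ (tt_mem_R cs h0 x l),
      eta_walk_min cs hab h0 hx hk.le hl]
  rcases Nat.eq_zero_or_pos k with h4 | h4
  · obtain ⟨l, hl, rfl⟩ := (mem_R_iff cs h0).1 h3
    have := (key l hl).2 rfl
    rw [if_neg (by omega), if_neg (by omega)] at this
    simp at this
  · rcases le_or_gt k (M a b) with h5 | h5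
    · left
      have := (key 0 (by omega)).1 (by rw [if_pos (by omega), if_neg (by omega), add_zero])
      exact this.symm
    · right
      have := (key (M a b - 1) (by omega)).1
        (by rw [if_pos (by omega), if_neg (by omega), add_zero])
      exact this.symm

end Pool.Agent.V8H49.CS
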