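import Pool.Agent.V8H49.CS.Walk

set_option autoImplicit false

/-! Dihedral parabolic subgroups and their reflections. -/

namespace Pool.Agent.V8H49.CS

open Pool.Agent.Helper376.LC Pool.Agent.R330.BP CoxeterSystem

variable {B : Type*} {M : CoxeterMatrix B} {W : Type*} [Group W] (cs : CoxeterSystem M W)

/-- the dihedral parabolic subgroup -/
def P (a b : B) : Subgroup W := parab cs ({a, b} : Set B)

theorem P_comm (a b : B) : P cs a b = P cs b a := by
  unfold P
  rw [Set.pair_comm]

theorem left_mem (a b : B) : cs.simple a ∈ P cs a b := simple_mem_parab (by simp)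

theorem right_mem (a b : B) : cs.simple b ∈ P cs a b := simple_mem_parab (by simp)

theorem gen_mem (a b : B) (k : ℕ) : gen a b k ∈ ({a, b} : Set B) := by
  unfold gen
  split_ifs <;> simp

theorem walk_mem (a b : B) (k : ℕ) : walk cs a b k ∈ P cs a b := by
  induction k with
  | zero => exact one_mem _
  | succ k ih => exact mul_mem (simple_mem_parab (gen_mem a b k)) ih

theorem gen_cases {a b i : B} (hi : i ∈ ({a, b} : Set B)) (k : ℕ) :
    i = gen a b k ∨ i = gen a b (k + 1) := by
  rcases hi with rfl | hi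
  · rcases Nat.even_or_odd k with h | h
    · left; simp [gen, h]
    · right; simp [gen, h.add_one]
  · rw [Set.mem_singleton_iff] at hi
    subst hi
    rcases Nat.even_or_odd k with h | h
    · right
      have : ¬ Even (k + 1) := by rw [Nat.not_even_iff_odd]; exact h.add_one
      simp [gen, this]
    · left
      have : ¬ Even k := by rw [Nat.not_even_iff_odd]; exact h
      simp [gen, this]

theorem simple_mul_walk {a b i : B} (h0 : M a b ≠ 0) (hi : i ∈ ({a, b} : Set B)) (k : ℕ) :
    ∃ l, cs.simple i * walk cs a b k = walk cs a b l := by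
  have aux : ∀ k : ℕ, i = gen a b (k + 1 + 1) → cs.simple i * walk cs a b (k + 1) = walk cs a b k := by
    intro k hk
    rw [gen_add_two] at hk
    rw [walk, ← hk, ss]
  rcases gen_cases hi k with h | h
  · exact ⟨k + 1, by rw [walk, h]⟩
  · rcases k with _ | k
    · refine ⟨2 * M a b - 1, ?_⟩
      have h1 := walk_period cs a b 0
      rw [← h1]
      have h2 : 0 + 2 * M a b = (2 * M a b - 1) + 1 := by omega
      rw [h2]
      apply aux
      have h3 : 2 * M a b - 1 + 1 + 1 = 2 * (M a b) + 1 := by omega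
      rw [h3, gen_two_mul_add]
      rw [h]
      exact gen_two_mul_add a b 0
    · exact ⟨k, aux k h⟩

theorem walk_mod {a b : B} (h0 : M a b ≠ 0) (k : ℕ) :
    ∃ l < 2 * M a b, walk cs a b k = walk cs a b l := by
  induction k using Nat.strong_induction_on with
  | _ k ih =>
    rcases lt_or_ge k (2 * M a b) with h | h
    · exact ⟨k, h, rfl⟩
    · obtain ⟨l, hl, he⟩ := ih (k - 2 * M a b) (by omega)
      refine ⟨l, hl, ?_⟩
      rw [← he]
      conv_lhs => rw [show k = k - 2 * M a b + 2 * M a b by omega, walk_period]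

theorem mem_P_iff {a b : B} (h0 : M a b ≠ 0) {p : W} :
    p ∈ P cs a b ↔ ∃ k < 2 * M a b, p = walk cs a b k := by
  constructor
  · intro h
    obtain ⟨ω, h1, rfl⟩ := exists_word_of_mem h
    suffices hh : ∃ k, cs.wordProd ω = walk cs a b k by
      obtain ⟨k, hk⟩ := hh
      obtain ⟨l, hl, he⟩ := walk_mod cs h0 k
      exact ⟨l, hl, hk.trans he⟩
    clear h
    induction ω with
    | nil => exact ⟨0, by simp [walk]⟩
    | cons i ω ih =>
      obtain ⟨k, hk⟩ := ih (fun j hj => h1 j (by simp [hj]))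
      rw [cs.wordProd_cons, hk]
      exact simple_mul_walk cs h0 (h1 i (by simp)) k
  · rintro ⟨k, -, rfl⟩
    exact walk_mem cs a b k

theorem length_walk_mod (a b : B) (k : ℕ) : cs.length (walk cs a b k) % 2 = k % 2 := by
  induction k with
  | zero => simp [walk]
  | succ k ih =>
    rw [walk, cs.length_mul_mod_two, cs.length_simple]
    omega

theorem eta_mem {J : Set B} {w t : W} (hw : w ∈ parab cs J) (h : eta cs w t = 1) :
    t ∈ parab cs J :=
  Ninv_subset_parab (v := w⁻¹) (inv_mem hw) ((mem_Ninv_iff cs _ _).2 (by rwa [inv_inv]))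

theorem exists_desc {J : Set B} {w : W} (hw : w ∈ parab cs J) (h1 : w ≠ 1) :
    ∃ i ∈ J, eta cs w (cs.simple i) = 1 := by
  obtain ⟨ω, h2, h3, h4⟩ := exists_reduced_of_mem (inv_mem hw)
  rcases ω with _ | ⟨i, ω⟩
  · rw [cs.wordProd_nil] at h4
    exact absurd (inv_eq_one.1 h4.symm) h1
  · refine ⟨i, h2 i (by simp), ?_⟩
    have h5 := IsReduced.lt h3
    have h6 : cs.simple i ∈ Ninv cs w⁻¹ := by
      rw [simple_mem_Ninv, ← h4, cs.wordProd_cons, ss]
      exact h5
    rwa [mem_Ninv_iff, inv_inv] at h6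

theorem eta_eq_zero_of_not {w t : W} (h : ¬ cs.length (w * t) < cs.length w) : eta cs w t = 0 := by
  rcases zmod2_cases (eta cs w t) with h1 | h1
  · exact h1
  · exact absurd (rightInv_of_eta cs h1).2 h

theorem length_lt_of_eta {w t : W} (h : eta cs w t = 1) : cs.length (w * t) < cs.length w :=
  (rightInv_of_eta cs h).2

/-- the reflections of `x⁻¹ P x` -/
def R (a b : B) (x : W) : Set W := {t | cs.IsReflection t ∧ x * t * x⁻¹ ∈ P cs a b}

theorem mem_R_iff {a b : B} (h0 : M a b ≠ 0) {x t : W} :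
    t ∈ R cs a b x ↔ ∃ k < M a b, t = tt cs a b x k := by
  constructor
  · rintro ⟨h1, h2⟩
    obtain ⟨k, hk, he⟩ := (mem_P_iff cs h0).1 h2
    have h3 : cs.IsReflection (x * t * x⁻¹) := h1.conj x
    have h4 := h3.odd_length
    rw [he, Nat.odd_iff, length_walk_mod] at h4
    obtain ⟨l, rfl⟩ : ∃ l, k = 2 * l + 1 := ⟨k / 2, by omega⟩
    refine ⟨l, by omega, ?_⟩
    rw [tt_eq, ← walk_two_mul_add, ← he]
    group
  · rintro ⟨k, -, rfl⟩
    refine ⟨isReflection_tt cs a b x k, ?_⟩
    rw [tt_eq]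
    have : x * (x⁻¹ * (cs.simple a * (cs.simple b * cs.simple a) ^ k) * x) * x⁻¹ =
        walk cs a b (2 * k + 1) := by
      rw [walk_two_mul_add]
      group
    rw [this]
    exact walk_mem cs a b _

theorem tt_mem_R {a b : B} (h0 : M a b ≠ 0) (x : W) (k : ℕ) : tt cs a b x k ∈ R cs a b x := by
  refine ⟨isReflection_tt cs a b x k, ?_⟩
  rw [tt_eq]
  have : x * (x⁻¹ * (cs.simple a * (cs.simple b * cs.simple a) ^ k) * x) * x⁻¹ =
      walk cs a b (2 * k + 1) := by
    rw [walk_two_mul_add]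
    group
  rw [this]
  exact walk_mem cs a b _

theorem R_coset {a b : B} {p : W} (hp : p ∈ P cs a b) (x : W) : R cs a b (p * x) = R cs a b x := by
  ext t
  unfold R
  simp only [Set.mem_ofPred_eq]
  have : p * x * t * (p * x)⁻¹ = p * (x * t * x⁻¹) * p⁻¹ := by group
  rw [this, Subgroup.mul_mem_cancel_right _ (inv_mem hp), Subgroup.mul_mem_cancel_left _ hp]

theorem R_comm (a b : B) (x : W) : R cs a b x = R cs b a x := by
  unfold R
  rw [P_comm]

/-- a coset has an element without inversions in `R` -/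
theorem exists_min (a b : B) (x : W) :
    ∃ p ∈ P cs a b, ∀ t ∈ R cs a b x, eta cs (p * x) t = 0 := by
  classical
  have hex : ∃ n, ∃ p ∈ P cs a b, cs.length (p * x) = n := ⟨_, 1, one_mem _, rfl⟩
  obtain ⟨p, hp, hn⟩ := Nat.find_spec hex
  refine ⟨p, hp, ?_⟩
  rintro t ⟨ht, htP⟩
  apply eta_eq_zero_of_not
  intro hlt
  have h1 : p * x * t = p * (x * t * x⁻¹) * x := by group
  have h2 := Nat.find_min hex (m := cs.length (p * x * t)) (by rw [← hn]; exact hlt)
  exact h2 ⟨p * (x * t * x⁻¹), mul_mem hp htP, by rw [h1]⟩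

/-- Kilmoyer-type lemma -/
theorem inter_closure {J J' : Set B} (y : W)
    (hy : ∀ p' ∈ parab cs J', ∀ p ∈ parab cs J, cs.length y ≤ cs.length (p' * y * p)) (w : W)
    (hw : w ∈ parab cs J) (hw' : y * w * y⁻¹ ∈ parab cs J') :
    w ∈ parab cs {i ∈ J | y * cs.simple i * y⁻¹ ∈ parab cs J'} := by
  induction hn : cs.length w using Nat.strong_induction_on generalizing w with
  | _ n ih =>
    by_cases h1 : w = 1
    · rw [h1]
      exact one_mem _
    obtain ⟨i, hi, hei⟩ := exists_desc cs hw h1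
    have e1 : eta cs y (cs.simple i) = 0 := by
      apply eta_eq_zero_of_not
      have := hy 1 (one_mem _) (cs.simple i) (simple_mem_parab hi)
      rw [one_mul] at this
      omega
    have e2 : eta cs y (w * cs.simple i * w⁻¹) = 0 := by
      apply eta_eq_zero_of_not
      have := hy 1 (one_mem _) (w * cs.simple i * w⁻¹)
        (mul_mem (mul_mem hw (simple_mem_parab hi)) (inv_mem hw))
      rw [one_mul] at this
      omega
    have e3 : eta cs (y * w) (cs.simple i) = 1 := by
      rw [eta_mul, hei, e2, add_zero]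
    have e4 : eta cs (y * w * y⁻¹) (y * cs.simple i * y⁻¹) = 1 := by
      have : y * w = (y * w * y⁻¹) * y := by group
      rw [this, eta_mul, e1, zero_add] at e3
      exact e3
    have e5 := eta_mem cs hw' e4
    have hiK : i ∈ {i ∈ J | y * cs.simple i * y⁻¹ ∈ parab cs J'} := ⟨hi, e5⟩
    have h2 := ih (cs.length (w * cs.simple i)) (by rw [← hn]; exact length_lt_of_eta cs hei)
      (w * cs.simple i) (mul_mem hw (simple_mem_parab hi)) (by
        have : y * (w * cs.simple i) * y⁻¹ = (y * w * y⁻¹) * (y * cs.simple i * y⁻¹) := by group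
        rw [this]
        exact mul_mem hw' e5) rfl
    have h3 := mul_mem h2 (simple_mem_parab hiK)
    rwa [ss'] at h3

theorem parab_single {b : B} {w : W} (h : w ∈ parab cs ({b} : Set B)) : w = 1 ∨ w = cs.simple b := by
  obtain ⟨ω, h1, rfl⟩ := exists_word_of_mem h
  clear h
  induction ω with
  | nil => left; simp
  | cons i ω ih =>
    have hi : i = b := by simpa using h1 i (by simp)
    subst hi
    rw [cs.wordProd_cons]
    rcases ih (fun j hj => h1 j (by simp [hj])) with h | h
    · right; rw [h, mul_one]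
    · left; rw [h, cs.simple_mul_simple_self]

theorem refl_ne_one {t : W} (h : cs.IsReflection t) : t ≠ 1 := by
  rintro rfl
  have := h.odd_length
  simp at this

theorem R_subset_of_two {a b a' b' : B} {x x' t u : W} (htu : t ≠ u)
    (ht : t ∈ R cs a b x) (hu : u ∈ R cs a b x) (ht' : t ∈ R cs a' b' x')
    (hu' : u ∈ R cs a' b' x') : R cs a b x ⊆ R cs a' b' x' := by
  classical
  have hex : ∃ n, ∃ p' ∈ P cs a' b', ∃ p ∈ P cs a b, cs.length (p' * (x' * x⁻¹) * p) = n :=
    ⟨_, 1, one_mem _, 1, one_mem _, rfl⟩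
  obtain ⟨p', hp', p, hp, hn⟩ := Nat.find_spec hex
  have hmin := fun m hm => Nat.find_min hex (m := m) hm
  rw [← hn] at hmin
  set y := p' * (x' * x⁻¹) * p with hy
  have hy' : ∀ q' ∈ P cs a' b', ∀ q ∈ P cs a b, cs.length y ≤ cs.length (q' * y * q) := by
    intro q' hq' q hq
    by_contra hlt
    push_neg at hlt
    refine hmin _ hlt ⟨q' * p', mul_mem hq' hp', p * q, mul_mem hp hq, ?_⟩
    rw [hy]
    congr 1
    group
  have hmem : ∀ v, v ∈ R cs a b x → p⁻¹ * x * v * (p⁻¹ * x)⁻¹ ∈ P cs a b := by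
    rintro v ⟨-, hv⟩
    have : p⁻¹ * x * v * (p⁻¹ * x)⁻¹ = p⁻¹ * (x * v * x⁻¹) * p := by group
    rw [this]
    exact mul_mem (mul_mem (inv_mem hp) hv) hp
  have hconj : ∀ v, y * (p⁻¹ * x * v * (p⁻¹ * x)⁻¹) * y⁻¹ = p' * (x' * v * x'⁻¹) * p'⁻¹ := by
    intro v
    rw [hy]
    group
  have hmem' : ∀ v, v ∈ R cs a' b' x' →
      y * (p⁻¹ * x * v * (p⁻¹ * x)⁻¹) * y⁻¹ ∈ P cs a' b' := by
    rintro v ⟨-, hv⟩
    rw [hconj]
    exact mul_mem (mul_mem hp' hv) (inv_mem hp')
  have kt := inter_closure cs y hy' _ (hmem t ht) (hmem' t ht')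
  have ku := inter_closure cs y hy' _ (hmem u hu) (hmem' u hu')
  set K : Set B := {i ∈ ({a, b} : Set B) | y * cs.simple i * y⁻¹ ∈ parab cs ({a', b'} : Set B)}
    with hK
  have key : ∀ c : B, K ⊆ {c} → False := by
    intro c hc
    have h1 := parab_single cs (parab_mono hc kt)
    have h2 := parab_single cs (parab_mono hc ku)
    have n1 : p⁻¹ * x * t * (p⁻¹ * x)⁻¹ ≠ 1 := refl_ne_one cs (ht.1.conj (p⁻¹ * x))
    have n2 : p⁻¹ * x * u * (p⁻¹ * x)⁻¹ ≠ 1 := refl_ne_one cs (hu.1.conj (p⁻¹ * x))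
    have h3 : p⁻¹ * x * t * (p⁻¹ * x)⁻¹ = p⁻¹ * x * u * (p⁻¹ * x)⁻¹ :=
      (h1.resolve_left n1).trans (h2.resolve_left n2).symm
    exact htu (mul_left_cancel (mul_right_cancel h3))
  have ha : a ∈ K := by
    by_contra h
    apply key b
    rintro i ⟨hi, hi'⟩
    rcases hi with rfl | hi
    · exact absurd ⟨by simp, hi'⟩ h
    · exact hi
  have hb : b ∈ K := by
    by_contra h
    apply key a
    rintro i ⟨hi, hi'⟩
    rcases hi with rfl | hi
    · exact rfl
    · rw [Set.mem_singleton_iff] at hi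
      subst hi
      exact absurd ⟨by simp, hi'⟩ h
  have hPP : ∀ w ∈ P cs a b, y * w * y⁻¹ ∈ P cs a' b' := by
    intro w hw
    unfold P parab at hw
    induction hw using Subgroup.closure_induction with
    | mem z hz =>
      obtain ⟨i, hi, rfl⟩ := hz
      rcases hi with rfl | hi
      · exact ha.2
      · rw [Set.mem_singleton_iff] at hi
        subst hi
        exact hb.2
    | one => simp [one_mem]
    | mul z z' _ _ hz hz' =>
      have : y * (z * z') * y⁻¹ = (y * z * y⁻¹) * (y * z' * y⁻¹) := by group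
      rw [this]
      exact mul_mem hz hz'
    | inv z _ hz =>
      have : y * z⁻¹ * y⁻¹ = (y * z * y⁻¹)⁻¹ := by group
      rw [this]
      exact inv_mem hz
  intro v hv
  refine ⟨hv.1, ?_⟩
  have h1 := hPP _ (hmem v hv)
  rw [hconj] at h1
  have h2 := mul_mem (mul_mem (inv_mem hp') h1) hp'
  have : p'⁻¹ * (p' * (x' * v * x'⁻¹) * p'⁻¹) * p' = x' * v * x'⁻¹ := by group
  rwa [this] at h2

theorem R_eq_of_two {a b a' b' : B} {x x' t u : W} (htu : t ≠ u)
    (ht : t ∈ R cs a b x) (hu : u ∈ R cs a b x) (ht' : t ∈ R cs a' b' x')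
    (hu' : u ∈ R cs a' b' x') : R cs a b x = R cs a' b' x' :=
  Set.Subset.antisymm (R_subset_of_two cs htu ht hu ht' hu') (R_subset_of_two cs htu ht' hu' ht hu)

end Pool.Agent.V8H49.CS
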