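import Pool.Agent.V8H49.CS.Can

set_option autoImplicit false

/-! The sign cocycle. -/

namespace Pool.Agent.V8H49.CS

open Pool.Agent.Helper376.LC Pool.Agent.R330.BP CoxeterSystem

variable {B : Type*} {M : CoxeterMatrix B} {W : Type*} [Group W] (cs : CoxeterSystem M W)

/-- sign choices -/
structure IsSignChoice (c : B → B → ℤˣ) : Prop where
  conj : ∀ i j i' j', i ≠ j → M i j ≠ 0 → i' ≠ j' → M i' j' ≠ 0 →
    (∃ g : W, g * cs.simple i * g⁻¹ = cs.simple i' ∧ g * cs.simple j * g⁻¹ = cs.simple j') →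
    c i j = c i' j'
  symm : ∀ i j, i ≠ j → M i j ≠ 0 → c i j = c j i

/-- the dihedral reflection sets of sign `-1` -/
def DD (c : B → B → ℤˣ) : Set (Set W) :=
  {D | ∃ (a b : B) (x : W), a ≠ b ∧ M a b ≠ 0 ∧ c a b = -1 ∧ D = R cs a b x}

theorem exists_can {c : B → B → ℤˣ} {D : Set W} (h : D ∈ DD cs c) : ∃ t, IsCan cs D t := by
  obtain ⟨a, b, x, hab, h0, -, rfl⟩ := h
  obtain ⟨p, hp, hx⟩ := exists_min cs a b x
  have h1 := R_coset cs hp x
  rw [← h1] at hx ⊢
  exact ⟨_, can_zero cs hab h0 hx⟩

open Classical in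
/-- a chosen canonical element -/
noncomputable def rr (D : Set W) : W := if h : ∃ t, IsCan cs D t then h.choose else 1

theorem rr_spec {D : Set W} (h : ∃ t, IsCan cs D t) : IsCan cs D (rr cs D) := by
  unfold rr
  rw [dif_pos h]
  exact h.choose_spec

open Classical in
/-- contribution of `D` -/
noncomputable def gg (c : B → B → ℤˣ) (D : Set W) (t w : W) : ZMod 2 :=
  if D ∈ DD cs c ∧ t ∈ D ∧ rr cs D = t ∧ ∀ u ∈ D, u ≠ t → eta cs w u = 1 then 1 else 0

/-- the crossing function -/
noncomputable def FF (c : B → B → ℤˣ) (i : B) (w : W) : ZMod 2 :=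
  ∑ᶠ D : Set W, gg cs c D (w⁻¹ * cs.simple i * w) w

theorem eta_finite (w : W) : {u : W | eta cs w u = 1}.Finite := by
  obtain ⟨s, hs, -⟩ := Ninv_eq cs w⁻¹
  have : {u : W | eta cs w u = 1} = Ninv cs w⁻¹ := by
    ext u
    rw [mem_Ninv_iff, inv_inv]
    rfl
  rw [this, hs]
  exact s.finite_toSet

theorem gg_finite (c : B → B → ℤˣ) (t w : W) :
    (Function.support fun D : Set W => gg cs c D t w).Finite := by
  have h1 : (insert t {u : W | eta cs w u = 1}).Finite := (eta_finite cs w).insert t
  refine h1.finite_subsets.subset ?_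
  intro D hD
  rw [Function.mem_support] at hD
  have h3 : D ∈ DD cs c ∧ t ∈ D ∧ rr cs D = t ∧ ∀ u ∈ D, u ≠ t → eta cs w u = 1 := by
    by_contra h
    apply hD
    unfold gg
    rw [if_neg h]
  obtain ⟨-, -, -, h2⟩ := h3
  intro u hu
  by_cases e : u = t
  · left; exact e
  · right; exact h2 u hu e

theorem FF_simple_mul (c : B → B → ℤˣ) (i : B) (w : W) :
    FF cs c i (cs.simple i * w) = FF cs c i w := by
  unfold FF
  have h1 : (cs.simple i * w)⁻¹ * cs.simple i * (cs.simple i * w) = w⁻¹ * cs.simple i * w := by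
    rw [mul_inv_rev, cs.inv_simple]
    rw [mul_assoc, ss, mul_assoc]
  rw [h1]
  apply finsum_congr
  intro D
  unfold gg
  congr 1
  apply propext
  refine and_congr_right fun _ => and_congr_right fun _ => and_congr_right fun _ => ?_
  refine forall₃_congr fun u hu hne => ?_
  rw [eta_mul, eta_simple, if_neg, add_zero]
  intro h
  apply hne
  rw [← h]
  group

/-- the sum around a dihedral coset -/
noncomputable def theta (c : B → B → ℤˣ) (a b : B) (x : W) : ZMod 2 :=
  ∑ k ∈ Finset.range (2 * M a b), FF cs c (gen a b k) (walk cs a b k * x)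

theorem theta_eq_finsum (c : B → B → ℤˣ) (a b : B) (x : W) :
    theta cs c a b x = ∑ᶠ D : Set W, ∑ k ∈ Finset.range (2 * M a b),
      gg cs c D (tt cs a b x k) (walk cs a b k * x) := by
  unfold theta FF
  rw [finsum_sum_comm]
  · rfl
  · intro k _
    exact gg_finite cs c _ _

theorem not_mem_R {a b : B} {x : W} {D : Set W} {c : B → B → ℤˣ} (hD : D ∈ DD cs c)
    (hne : D ≠ R cs a b x) {t u : W} (htu : u ≠ t) (ht : t ∈ D) (hu : u ∈ D)
    (ht' : t ∈ R cs a b x) : u ∉ R cs a b x := by
  intro hu'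
  obtain ⟨a', b', x', -, -, -, rfl⟩ := hD
  exact hne (R_eq_of_two cs htu hu ht hu' ht')

theorem eta_walk_not_mem {a b : B} (h0 : M a b ≠ 0) {x u : W} (hu : u ∉ R cs a b x) (k : ℕ) :
    eta cs (walk cs a b k * x) u = eta cs x u := by
  classical
  rw [eta_walk]
  rw [Finset.sum_eq_zero, add_zero]
  intro l _
  rw [if_neg]
  rintro rfl
  exact hu (tt_mem_R cs h0 x l)

theorem sum_gg_ne (c : B → B → ℤˣ) {a b : B} (h0 : M a b ≠ 0) (x : W) {D : Set W}
    (hne : D ≠ R cs a b x) :
    ∑ k ∈ Finset.range (2 * M a b), gg cs c D (tt cs a b x k) (walk cs a b k * x) = 0 := by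
  have h1 : ∀ k, gg cs c D (tt cs a b x (M a b + k)) (walk cs a b (M a b + k) * x) =
      gg cs c D (tt cs a b x k) (walk cs a b k * x) := by
    intro k
    have h2 : tt cs a b x (M a b + k) = tt cs a b x k := by rw [add_comm, tt_period]
    rw [h2]
    unfold gg
    congr 1
    apply propext
    refine and_congr_right fun hD => and_congr_right fun htD => and_congr_right fun _ => ?_
    refine forall₃_congr fun u hu hut => ?_
    have h3 := not_mem_R cs hD hne hut htD hu (tt_mem_R cs h0 x k)
    rw [eta_walk_not_mem cs h0 h3, eta_walk_not_mem cs h0 h3]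
  rw [two_mul, Finset.sum_range_add]
  simp only [h1]
  exact CharTwo.add_self_eq_zero _

theorem theta_eq (c : B → B → ℤˣ) {a b : B} (h0 : M a b ≠ 0) (x : W) :
    theta cs c a b x = ∑ k ∈ Finset.range (2 * M a b),
      gg cs c (R cs a b x) (tt cs a b x k) (walk cs a b k * x) := by
  rw [theta_eq_finsum]
  apply finsum_eq_single
  intro D hD
  exact sum_gg_ne cs c h0 x hD

theorem theta_min_of_mem {c : B → B → ℤˣ} {a b : B} (hab : a ≠ b) (h0 : M a b ≠ 0) {x : W}
    (hx : ∀ t ∈ R cs a b x, eta cs x t = 0) (hD : R cs a b x ∈ DD cs c) :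
    theta cs c a b x = 1 := by
  have h2 := two_le_M hab h0
  rw [theta_eq cs c h0]
  rcases can_cases cs hab h0 hx (rr_spec cs (exists_can cs hD)) with h3 | h3
  · rw [Finset.sum_eq_single (M a b)]
    · unfold gg
      rw [if_pos]
      refine ⟨hD, tt_mem_R cs h0 _ _, ?_, ?_⟩
      · rw [h3, ← tt_period cs a b x 0, zero_add]
      · intro u hu _
        obtain ⟨l, hl, rfl⟩ := (mem_R_iff cs h0).1 hu
        rw [eta_walk_min cs hab h0 hx (by omega) hl, if_pos (by omega), if_neg (by omega),
          add_zero]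
    · intro k hk hne
      rw [Finset.mem_range] at hk
      unfold gg
      rw [if_neg]
      rintro ⟨-, -, h4, h5⟩
      rw [h3, tt_eq_iff cs hab x (by omega) hk] at h4
      have h6 : k = 0 := by omega
      subst h6
      have h7 := h5 (tt cs a b x 1) (tt_mem_R cs h0 x 1) (by
        intro h8
        have := tt_inj cs hab x (by omega) (by omega) h8
        omega)
      rw [eta_walk_min cs hab h0 hx (by omega) (by omega), if_neg (by omega),
        if_neg (by omega)] at h7
      simp at h7
    · intro h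
      rw [Finset.mem_range] at h
      omega
  · rw [Finset.sum_eq_single (M a b - 1)]
    · unfold gg
      rw [if_pos]
      refine ⟨hD, tt_mem_R cs h0 _ _, h3, ?_⟩
      intro u hu hne
      obtain ⟨l, hl, rfl⟩ := (mem_R_iff cs h0).1 hu
      have : l ≠ M a b - 1 := by
        rintro rfl
        exact hne rfl
      rw [eta_walk_min cs hab h0 hx (by omega) hl, if_pos (by omega), if_neg (by omega),
        add_zero]
    · intro k hk hne
      rw [Finset.mem_range] at hk
      unfold gg
      rw [if_neg]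
      rintro ⟨-, -, h4, h5⟩
      rw [h3, tt_eq_iff cs hab x (by omega) hk] at h4
      have h6 : k = M a b - 1 + M a b := by omega
      subst h6
      have h7 := h5 (tt cs a b x 0) (tt_mem_R cs h0 x 0) (by
        intro h8
        rw [tt_period] at h8
        have := tt_inj cs hab x (by omega) (by omega) h8
        omega)
      rw [eta_walk_min cs hab h0 hx (by omega) (by omega), if_pos (by omega),
        if_pos (by omega)] at h7
      exact absurd h7 (by decide)
    · intro h
      rw [Finset.mem_range] at h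
      omega

theorem theta_of_not_mem {c : B → B → ℤˣ} {a b : B} (h0 : M a b ≠ 0) {x : W}
    (hD : R cs a b x ∉ DD cs c) : theta cs c a b x = 0 := by
  rw [theta_eq cs c h0]
  apply Finset.sum_eq_zero
  intro k _
  unfold gg
  rw [if_neg]
  rintro ⟨h, -⟩
  exact hD h

theorem sign_of_mem {c : B → B → ℤˣ} (hc : IsSignChoice cs c) {a b : B} (hab : a ≠ b)
    (h0 : M a b ≠ 0) {x : W} (hx : ∀ t ∈ R cs a b x, eta cs x t = 0) (hD : R cs a b x ∈ DD cs c) :
    c a b = -1 := by
  obtain ⟨a', b', x'', hab', h0', hc', hDe⟩ := hD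
  obtain ⟨p, hp, hx'⟩ := exists_min cs a' b' x''
  rw [← R_coset cs hp x''] at hDe
  rw [← R_coset cs hp x''] at hx'
  generalize p * x'' = x' at *
  have h2 := two_le_M hab h0
  have e0 := can_zero cs hab h0 hx
  have e1 := can_last cs hab h0 hx
  rw [hDe] at e0 e1
  have f0 := can_cases cs hab' h0' hx' e0
  have f1 := can_cases cs hab' h0' hx' e1
  have hne : tt cs a b x 0 ≠ tt cs a b x (M a b - 1) := by
    intro h
    have := tt_inj cs hab x (by omega) (by omega) h
    omega
  rw [tt_zero, tt_last cs a b x h0] at hne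
  rw [tt_zero, tt_zero, tt_last cs a' b' x' h0'] at f0
  rw [tt_last cs a b x h0, tt_zero, tt_last cs a' b' x' h0'] at f1
  have conjeq : ∀ i j : B, x⁻¹ * cs.simple i * x = x'⁻¹ * cs.simple j * x' →
      (x' * x⁻¹) * cs.simple i * (x' * x⁻¹)⁻¹ = cs.simple j := by
    intro i j h
    have : (x' * x⁻¹) * cs.simple i * (x' * x⁻¹)⁻¹ = x' * (x⁻¹ * cs.simple i * x) * x'⁻¹ := by
      group
    rw [this, h]
    group
  rcases f0 with f0 | f0
  · rcases f1 with f1 | f1
    · exact absurd (f0.trans f1.symm) hne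
    · rw [hc.conj a b a' b' hab h0 hab' h0' ⟨x' * x⁻¹, conjeq _ _ f0, conjeq _ _ f1⟩]
      exact hc'
  · rcases f1 with f1 | f1
    · have h0'' : M b' a' ≠ 0 := by rwa [M.symmetric]
      rw [hc.conj a b b' a' hab h0 hab'.symm h0'' ⟨x' * x⁻¹, conjeq _ _ f0, conjeq _ _ f1⟩,
        ← hc.symm a' b' hab' h0']
      exact hc'
    · exact absurd (f0.trans f1.symm) hne

open Classical in
theorem theta_min {c : B → B → ℤˣ} (hc : IsSignChoice cs c) {a b : B} (hab : a ≠ b)
    (h0 : M a b ≠ 0) {x : W} (hx : ∀ t ∈ R cs a b x, eta cs x t = 0) :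
    theta cs c a b x = if c a b = -1 then 1 else 0 := by
  split_ifs with h
  · exact theta_min_of_mem cs hab h0 hx ⟨a, b, x, hab, h0, h, rfl⟩
  · exact theta_of_not_mem cs h0 (fun hD => h (sign_of_mem cs hc hab h0 hx hD))

/-! the permutations -/

/-- the involution attached to a simple generator -/
noncomputable def sigma (c : B → B → ℤˣ) (i : B) : Equiv.Perm (W × ZMod 2) where
  toFun p := (cs.simple i * p.1, p.2 + FF cs c i p.1)
  invFun p := (cs.simple i * p.1, p.2 + FF cs c i p.1)
  left_inv p := by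
    simp only [ss, FF_simple_mul, add_assoc, CharTwo.add_self_eq_zero, add_zero]
  right_inv p := by
    simp only [ss, FF_simple_mul, add_assoc, CharTwo.add_self_eq_zero, add_zero]

theorem sigma_apply (c : B → B → ℤˣ) (i : B) (x : W) (e : ZMod 2) :
    sigma cs c i (x, e) = (cs.simple i * x, e + FF cs c i x) := rfl

theorem sigma_mul_self (c : B → B → ℤˣ) (i : B) : sigma cs c i * sigma cs c i = 1 := by
  ext1 p
  exact (sigma cs c i).left_inv p

theorem sigma_inv (c : B → B → ℤˣ) (i : B) : (sigma cs c i)⁻¹ = sigma cs c i :=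
  inv_eq_of_mul_eq_one_left (sigma_mul_self cs c i)

theorem pow_apply (c : B → B → ℤˣ) (a b : B) (n : ℕ) (x : W) (e : ZMod 2) :
    ((sigma cs c b * sigma cs c a) ^ n) (x, e) = (walk cs a b (2 * n) * x,
      e + ∑ k ∈ Finset.range (2 * n), FF cs c (gen a b k) (walk cs a b k * x)) := by
  induction n with
  | zero => simp [walk]
  | succ n ih =>
    rw [pow_succ', Equiv.Perm.mul_apply, ih, Equiv.Perm.mul_apply, sigma_apply, sigma_apply,
      show 2 * (n + 1) = 2 * n + 1 + 1 by ring, Finset.sum_range_succ, Finset.sum_range_succ,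
      walk, walk, gen_two_mul, gen_two_mul_add]
    simp only [mul_assoc, add_assoc]

theorem pow_M_apply (c : B → B → ℤˣ) (a b : B) (x : W) (e : ZMod 2) :
    ((sigma cs c b * sigma cs c a) ^ (M a b)) (x, e) = (x, e + theta cs c a b x) := by
  rw [pow_apply, walk_two_mul, pow_period, one_mul]
  rfl

theorem sigma_conj_pow (c : B → B → ℤˣ) (a b : B) (n : ℕ) (i : B) (hi : i = a ∨ i = b) :
    sigma cs c i * (sigma cs c b * sigma cs c a) ^ n * sigma cs c i =
      ((sigma cs c b * sigma cs c a) ^ n)⁻¹ := by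
  have h1 : sigma cs c i * (sigma cs c b * sigma cs c a) * (sigma cs c i)⁻¹ =
      (sigma cs c b * sigma cs c a)⁻¹ := by
    rw [mul_inv_rev, sigma_inv, sigma_inv, sigma_inv]
    rcases hi with rfl | rfl
    · rw [mul_assoc, mul_assoc, sigma_mul_self, mul_one]
    · rw [← mul_assoc, sigma_mul_self, one_mul]
  have h2 : sigma cs c i * (sigma cs c b * sigma cs c a) ^ n * (sigma cs c i)⁻¹ =
      (sigma cs c i * (sigma cs c b * sigma cs c a) * (sigma cs c i)⁻¹) ^ n := by
    exact (conj_pow).symm
  rw [sigma_inv] at h2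
  rw [h2]
  rw [sigma_inv] at h1
  rw [h1, inv_pow]

theorem theta_simple_mul (c : B → B → ℤˣ) (a b : B) (i : B) (hi : i = a ∨ i = b) (x : W) :
    theta cs c a b (cs.simple i * x) = theta cs c a b x := by
  have h1 := sigma_conj_pow cs c a b (M a b) i hi
  have h2 : (sigma cs c b * sigma cs c a) ^ (M a b) *
      (sigma cs c i * (sigma cs c b * sigma cs c a) ^ (M a b) * sigma cs c i) = 1 := by
    rw [h1, mul_inv_cancel]
  have h3 := congrArg (fun f : Equiv.Perm (W × ZMod 2) => f (x, 0)) h2
  simp only [Equiv.Perm.mul_apply, sigma_apply, pow_M_apply, ss, FF_simple_mul,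
    Equiv.Perm.one_apply, Prod.mk.injEq, true_and, zero_add] at h3
  have h4 : FF cs c i x + theta cs c a b (cs.simple i * x) + FF cs c i x =
      theta cs c a b (cs.simple i * x) := by
    rw [add_comm, ← add_assoc, CharTwo.add_self_eq_zero, zero_add]
  rw [h4] at h3
  exact CharTwo.add_eq_zero.1 h3

theorem theta_mul (c : B → B → ℤˣ) {a b : B} {p : W} (hp : p ∈ P cs a b) (x : W) :
    theta cs c a b (p * x) = theta cs c a b x := by
  unfold P parab at hp
  induction hp using Subgroup.closure_induction generalizing x with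
  | mem z hz =>
    obtain ⟨i, hi, rfl⟩ := hz
    exact theta_simple_mul cs c a b i (by simpa using hi) x
  | one => rw [one_mul]
  | mul z z' _ _ hz hz' => rw [mul_assoc, hz, hz']
  | inv z _ hz =>
    have := hz (z⁻¹ * x)
    rw [mul_inv_cancel_left] at this
    exact this.symm

open Classical in
theorem theta_all {c : B → B → ℤˣ} (hc : IsSignChoice cs c) {a b : B} (hab : a ≠ b)
    (h0 : M a b ≠ 0) (x : W) : theta cs c a b x = if c a b = -1 then 1 else 0 := by
  obtain ⟨p, hp, hx⟩ := exists_min cs a b x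
  rw [← R_coset cs hp x] at hx
  rw [← theta_mul cs c hp x]
  exact theta_min cs hc hab h0 hx

end Pool.Agent.V8H49.CS
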