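import Pool.Agent.R330.BP.Basic

set_option autoImplicit false

/-! Dihedral walks and dihedral reflection sets in a Coxeter group. -/

namespace Pool.Agent.V8H49.CS

open Pool.Agent.Helper376.LC Pool.Agent.R330.BP CoxeterSystem

variable {B : Type*} {M : CoxeterMatrix B} {W : Type*} [Group W] (cs : CoxeterSystem M W)

/-- letters of the walk -/
def gen (a b : B) (k : ℕ) : B := if Even k then a else b

/-- the walk around a dihedral coset -/
def walk (a b : B) : ℕ → W
  | 0 => 1
  | k + 1 => cs.simple (gen a b k) * walk a b k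

/-- the crossed reflections -/
def tt (a b : B) (x : W) (k : ℕ) : W :=
  (walk cs a b k * x)⁻¹ * cs.simple (gen a b k) * (walk cs a b k * x)

theorem gen_add_two (a b : B) (k : ℕ) : gen a b (k + 2) = gen a b k := by
  simp [gen, parity_simps]

theorem gen_two_mul (a b : B) (k : ℕ) : gen a b (2 * k) = a := by
  simp [gen]

theorem gen_two_mul_add (a b : B) (k : ℕ) : gen a b (2 * k + 1) = b := by
  simp [gen]

theorem walk_two_mul (a b : B) (k : ℕ) : walk cs a b (2 * k) = (cs.simple b * cs.simple a) ^ k := by
  induction k with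
  | zero => simp [walk]
  | succ k ih =>
    rw [show 2 * (k + 1) = 2 * k + 1 + 1 by ring, walk, walk, ih, gen_two_mul_add, gen_two_mul,
      ← mul_assoc, pow_succ']

theorem walk_two_mul_add (a b : B) (k : ℕ) :
    walk cs a b (2 * k + 1) = cs.simple a * (cs.simple b * cs.simple a) ^ k := by
  rw [walk, walk_two_mul, gen_two_mul]

theorem pow_period (a b : B) : (cs.simple b * cs.simple a) ^ M a b = 1 := by
  rw [M.symmetric]
  exact cs.simple_mul_simple_pow b a

theorem walk_period (a b : B) (k : ℕ) : walk cs a b (k + 2 * M a b) = walk cs a b k := by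
  rcases Nat.even_or_odd' k with ⟨l, rfl | rfl⟩
  · rw [← mul_add, walk_two_mul, walk_two_mul, pow_add, pow_period, mul_one]
  · rw [show 2 * l + 1 + 2 * M a b = 2 * (l + M a b) + 1 by ring, walk_two_mul_add,
      walk_two_mul_add, pow_add, pow_period, mul_one]

theorem pow_inv_mul_simple (a b : B) (k : ℕ) :
    ((cs.simple b * cs.simple a) ^ k)⁻¹ * cs.simple a =
      cs.simple a * (cs.simple b * cs.simple a) ^ k := by
  have h : SemiconjBy (cs.simple a) (cs.simple b * cs.simple a) (cs.simple b * cs.simple a)⁻¹ := by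
    show cs.simple a * (cs.simple b * cs.simple a) = (cs.simple b * cs.simple a)⁻¹ * cs.simple a
    rw [mul_inv_rev, cs.inv_simple, cs.inv_simple, mul_assoc]
  have h2 := (h.pow_right k).eq
  rw [inv_pow] at h2
  exact h2.symm

/-- conjugation formula -/
theorem tt_eq (a b : B) (x : W) (k : ℕ) :
    tt cs a b x k = x⁻¹ * (cs.simple a * (cs.simple b * cs.simple a) ^ k) * x := by
  have h : (walk cs a b k)⁻¹ * cs.simple (gen a b k) * walk cs a b k =
      cs.simple a * (cs.simple b * cs.simple a) ^ k := by
    rcases Nat.even_or_odd' k with ⟨l, rfl | rfl⟩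
    · rw [walk_two_mul, gen_two_mul, pow_inv_mul_simple, two_mul, pow_add, mul_assoc]
    · rw [walk_two_mul_add, gen_two_mul_add, mul_inv_rev, cs.inv_simple]
      have e : ((cs.simple b * cs.simple a) ^ l)⁻¹ * cs.simple a * cs.simple b *
          (cs.simple a * (cs.simple b * cs.simple a) ^ l) =
          (((cs.simple b * cs.simple a) ^ l)⁻¹ * cs.simple a) * ((cs.simple b * cs.simple a) *
            (cs.simple b * cs.simple a) ^ l) := by
        simp only [mul_assoc]
      rw [e, pow_inv_mul_simple, ← pow_succ', mul_assoc, ← pow_add]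
      congr 2
      ring
  rw [tt, mul_inv_rev, ← h]
  simp only [mul_assoc]

theorem tt_period (a b : B) (x : W) (k : ℕ) : tt cs a b x (k + M a b) = tt cs a b x k := by
  rw [tt_eq, tt_eq, pow_add, pow_period, mul_one]

theorem tt_zero (a b : B) (x : W) : tt cs a b x 0 = x⁻¹ * cs.simple a * x := by
  rw [tt_eq, pow_zero, mul_one]

theorem tt_last (a b : B) (x : W) (h0 : M a b ≠ 0) :
    tt cs a b x (M a b - 1) = x⁻¹ * cs.simple b * x := by
  rw [tt_eq]
  have h : (cs.simple b * cs.simple a) ^ (M a b - 1) = cs.simple a * cs.simple b := by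
    have h1 : (cs.simple b * cs.simple a) ^ (M a b - 1) * (cs.simple b * cs.simple a) = 1 := by
      rw [← pow_succ, Nat.sub_add_cancel (Nat.pos_of_ne_zero h0), pow_period]
    rw [eq_inv_of_mul_eq_one_left h1, mul_inv_rev, cs.inv_simple, cs.inv_simple]
  rw [h, ss]

theorem isReflection_tt (a b : B) (x : W) (k : ℕ) : cs.IsReflection (tt cs a b x k) := by
  refine ⟨(walk cs a b k * x)⁻¹, gen a b k, ?_⟩
  rw [inv_inv]
  rfl

/-! reducedness -/

theorem isReduced_alt {i j : B} (hij : i ≠ j) {k : ℕ} (hk : M i j = 0 ∨ k ≤ M i j) :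
    cs.IsReduced (alternatingWord i j k) := by
  induction k generalizing i j with
  | zero =>
    unfold CoxeterSystem.IsReduced
    simp [alternatingWord]
  | succ k ih =>
    have hk' : M j i = 0 ∨ k + 1 ≤ M j i := by rwa [M.symmetric j i]
    have h1 : cs.IsReduced (alternatingWord j i k) := ih hij.symm (by omega)
    unfold CoxeterSystem.IsReduced at h1 ⊢
    rw [length_alternatingWord] at h1 ⊢
    rw [alternatingWord_succ, cs.wordProd_concat]
    have h2 : 0 ≤ Pool.Agent.R676.Cox.geo cs (cs.wordProd (alternatingWord j i k))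
        (Pool.Agent.R676.Cox.ee j) := by
      rw [Pool.Agent.R676.Cox.geo_wordProd, Pool.Agent.R676.Cox.prod_alt_ee]
      have q1 : 0 ≤ Pool.Agent.Helper741.qs (Pool.Agent.Helper741.cc M j i) (k + 1) :=
        Pool.Agent.Helper741.qs_nonneg M hij.symm hk'
      have q2 : 0 ≤ Pool.Agent.Helper741.qs (Pool.Agent.Helper741.cc M j i) k :=
        Pool.Agent.Helper741.qs_nonneg M hij.symm (by omega)
      split_ifs
      · exact add_nonneg (smul_nonneg q1 (Pool.Agent.R676.Cox.ee_nonneg j))
          (smul_nonneg q2 (Pool.Agent.R676.Cox.ee_nonneg i))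
      · exact add_nonneg (smul_nonneg q1 (Pool.Agent.R676.Cox.ee_nonneg i))
          (smul_nonneg q2 (Pool.Agent.R676.Cox.ee_nonneg j))
    rw [Pool.Agent.R676.Cox.geo_nonneg_iff] at h2
    rcases cs.length_mul_simple (cs.wordProd (alternatingWord j i k)) j with h3 | h3 <;> omega

theorem pow_eq_wordProd (i j : B) (k : ℕ) :
    (cs.simple i * cs.simple j) ^ k = cs.wordProd (alternatingWord i j (2 * k)) := by
  rw [CoxeterSystem.wordProd, Pool.Agent.R676.Cox.prod_alt_eq_pow]

theorem pow_ne_one {a b : B} (hab : a ≠ b) {k : ℕ} (hk : 0 < k) (hkm : k < M a b) :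
    (cs.simple b * cs.simple a) ^ k ≠ 1 := by
  have aux : ∀ l : ℕ, 0 < l → 2 * l ≤ M a b → (cs.simple b * cs.simple a) ^ l ≠ 1 := by
    intro l hl hlm h
    have h1 := isReduced_alt cs (i := b) (j := a) hab.symm (k := 2 * l)
      (Or.inr (by rw [M.symmetric]; exact hlm))
    unfold CoxeterSystem.IsReduced at h1
    rw [← pow_eq_wordProd, h, cs.length_one, length_alternatingWord] at h1
    omega
  intro h
  rcases le_total (2 * k) (M a b) with h1 | h1
  · exact aux k hk h1 h
  · refine aux (M a b - k) (by omega) (by omega) ?_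
    have h2 := pow_period cs a b
    rw [show M a b = M a b - k + k by omega, pow_add, h, mul_one] at h2
    exact h2

theorem tt_inj {a b : B} (hab : a ≠ b) (x : W) {k l : ℕ} (hk : k < M a b) (hl : l < M a b)
    (h : tt cs a b x k = tt cs a b x l) : k = l := by
  have aux : ∀ k l : ℕ, k < l → l < M a b → tt cs a b x k ≠ tt cs a b x l := by
    intro k l hkl hl h
    rw [tt_eq, tt_eq] at h
    have h2 := mul_left_cancel (mul_right_cancel h)
    have h3 := mul_left_cancel h2
    refine pow_ne_one cs hab (k := l - k) (by omega) (by omega) ?_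
    rw [show l = k + (l - k) by omega, pow_add] at h3
    exact mul_eq_left.1 h3.symm
  rcases lt_trichotomy k l with h1 | h1 | h1
  · exact absurd h (aux k l h1 hl)
  · exact h1
  · exact absurd h.symm (aux l k h1 hk)

open Classical in
theorem eta_walk (a b : B) (x t : W) (k : ℕ) :
    eta cs (walk cs a b k * x) t =
      eta cs x t + ∑ l ∈ Finset.range k, if t = tt cs a b x l then 1 else 0 := by
  induction k with
  | zero => simp [walk]
  | succ k ih =>
    rw [walk, mul_assoc, eta_mul, ih, eta_simple, Finset.sum_range_succ, add_assoc]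
    congr 2
    have : (walk cs a b k * x * t * (walk cs a b k * x)⁻¹ = cs.simple (gen a b k)) ↔
        t = tt cs a b x k := by
      rw [tt]
      constructor
      · intro h
        rw [← h]
        group
      · intro h
        rw [h]
        group
    simp only [this]

end Pool.Agent.V8H49.CS
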